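import Pool.Agent.Lib.MP_c8786f_co.Elec.Det
import Pool.Agent.Shared.HoffmanCirc

/-!
The covering theorem: if every partition into `r` parts is crossed by edges of total width at least
`m (r - 1)`, then every boundary modulo `m` is realised by values `0 ≤ x e ≤ a e`.
Proof: minimise the electrical energy over the coset of the prescribed boundary.
-/

namespace Pool.Agent.Lib.MP_c8786f_co.Elec

open Finset Matrix

set_option linter.unusedSectionVars false

variable {V E : Type} [Fintype V] [DecidableEq V] [Fintype E]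

lemma sum_inc (s t : E → V) (e : E) : ∑ v, inc s t e v = 0 := by
  simp [inc, sum_sub_distrib]

lemma inv_symm {s t : E → V} {c : E → ℝ} (hM : (lap s t c).PosDef) (x y : V → ℝ) :
    y ⬝ᵥ (lap s t c)⁻¹ *ᵥ x = x ⬝ᵥ (lap s t c)⁻¹ *ᵥ y := by
  have h := lap_symm s t c ((lap s t c)⁻¹ *ᵥ x) ((lap s t c)⁻¹ *ᵥ y)
  rw [mul_inv_vec hM, mul_inv_vec hM] at h
  rw [dotProduct_comm y, dotProduct_comm x, h]

lemma inv_nonneg' {s t : E → V} {c : E → ℝ} (hM : (lap s t c).PosDef) (hc : ∀ e, 0 ≤ c e)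
    (x : V → ℝ) : 0 ≤ x ⬝ᵥ (lap s t c)⁻¹ *ᵥ x := by
  have h := lap_form s t c ((lap s t c)⁻¹ *ᵥ x) ((lap s t c)⁻¹ *ᵥ x)
  rw [mul_inv_vec hM, dotProduct_comm] at h
  rw [h]
  exact add_nonneg (mul_self_nonneg _) (sum_nonneg fun e _ => by
    rw [mul_assoc]; exact mul_nonneg (hc e) (mul_self_nonneg _))

lemma current {s t : E → V} {c : E → ℝ} (hM : (lap s t c).PosDef) {w : V → ℝ}
    (hw : ∑ v, w v = 0) :
    ∑ e, (c e * (((lap s t c)⁻¹ *ᵥ w) (s e) - ((lap s t c)⁻¹ *ᵥ w) (t e))) • inc s t e = w := by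
  set φ := (lap s t c)⁻¹ *ᵥ w with hφ
  have h1 := lap_mulVec s t c φ
  rw [hφ, mul_inv_vec hM, ← hφ] at h1
  have h2 : (∑ v, φ v) * Fintype.card V = 0 := by
    have := congrArg (fun z : V → ℝ => ∑ v, z v) h1
    simp only [Pi.add_apply, sum_add_distrib, Finset.sum_apply, Pi.smul_apply, smul_eq_mul] at this
    rw [hw, sum_comm] at this
    simp only [← mul_sum, sum_inc] at this
    simpa using this.symm
  have h3 : (∑ v, φ v) • (1 : V → ℝ) = 0 := by
    ext u
    have : Nonempty V := ⟨u⟩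
    have h4 : (Fintype.card V : ℝ) ≠ 0 := by exact_mod_cast Fintype.card_ne_zero
    simp [(mul_eq_zero.mp h2).resolve_right h4]
  rw [h3, zero_add] at h1
  exact h1.symm

/-- real form of the covering theorem, with a small error -/
lemma cover_real {s t : E → V} {a : E → ℕ} {m : ℕ} (hm : 0 < m) (h : Cond s t a m)
    (β : V → ℤ) (hβ : ∑ v, β v = 0) {δ : ℝ} (hδ : 0 < δ) (hδ1 : δ ≤ 1) :
    ∃ (b : V → ℤ) (y : E → ℝ), ∑ v, b v = 0 ∧ (∀ v, (m : ℤ) ∣ b v - β v) ∧
      (∀ e, -δ ≤ y e ∧ y e ≤ a e + δ) ∧ ∀ v, ∑ e, y e * inc s t e v = b v := by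
  obtain ⟨c, hc, hM, hp⟩ := exists_cond hm h hδ hδ1
  let B := {b : V → ℤ // ∑ v, b v = 0 ∧ ∀ v, (m : ℤ) ∣ b v - β v}
  have : Nonempty B := ⟨⟨β, hβ, by simp⟩⟩
  let w : B → V → ℝ := fun b v => b.1 v - ∑ e, a e / 2 * inc s t e v
  have hw : ∀ b, ∑ v, w b v = 0 := by
    intro b
    simp only [w, sum_sub_distrib]
    rw [sum_comm]
    simp only [← mul_sum, sum_inc]
    have : ∑ v, (b.1 v : ℝ) = 0 := by exact_mod_cast b.2.1
    simpa using this
  let En : B → ℝ := fun b => w b ⬝ᵥ (lap s t c)⁻¹ *ᵥ w b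
  have hbdd : BddBelow (Set.range En) :=
    ⟨0, by rintro _ ⟨b, rfl⟩; exact inv_nonneg' hM (fun e => (hc e).1.le) _⟩
  obtain ⟨b, hb⟩ : ∃ b, En b < iInf En + δ := exists_lt_of_ciInf_lt (by linarith)
  set φ := (lap s t c)⁻¹ *ᵥ w b with hφ
  have hm' : (1 : ℝ) ≤ m := by exact_mod_cast hm
  have key : ∀ (e : E) (σ : ℤ), σ * σ = 1 →
      σ * (c e * (φ (s e) - φ (t e))) ≤ a e / 2 + δ := by
    intro e σ hσ
    have hσ' : (σ : ℝ) * σ = 1 := by exact_mod_cast hσ
    let b' : B := ⟨fun v => b.1 v - m * σ * ((Pi.single (s e) 1 : V → ℤ) v -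
        (Pi.single (t e) 1 : V → ℤ) v), by
          simp [sum_sub_distrib, ← mul_sum, b.2.1], fun v => by
          have := b.2.2 v
          rw [sub_right_comm, mul_assoc]
          exact dvd_sub this (dvd_mul_right _ _)⟩
    have h1 : w b' = w b - ((m : ℝ) * σ) • inc s t e := by
      ext v
      simp only [w, b', inc, Pi.sub_apply, Pi.smul_apply, smul_eq_mul, Pi.single_apply]
      push_cast
      ring
    have h2 : En b' = En b - 2 * (m * σ) * (φ (s e) - φ (t e)) + m * m * res s t c e := by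
      simp only [En]
      rw [h1, mulVec_sub, mulVec_smul, sub_dotProduct, dotProduct_sub, dotProduct_sub,
        dotProduct_smul, smul_dotProduct, smul_dotProduct, dotProduct_smul,
        inv_symm hM (inc s t e) (w b), ← hφ, inc_dot, res]
      simp only [smul_eq_mul]
      linear_combination (m * m * (inc s t e ⬝ᵥ (lap s t c)⁻¹ *ᵥ inc s t e)) * hσ'
    have h3 := ciInf_le hbdd b'
    have h4 : m * (2 * (σ * (φ (s e) - φ (t e)))) ≤ m * (m * res s t c e + δ) := by nlinarith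
    have h5 := le_of_mul_le_mul_left h4 (by linarith)
    have h6 := mul_le_mul_of_nonneg_left h5 (hc e).1.le
    have h7 := hp e
    have h8 := mul_le_mul_of_nonneg_right (hc e).2 hδ.le
    nlinarith
  refine ⟨b.1, fun e => a e / 2 + c e * (φ (s e) - φ (t e)), b.2.1, b.2.2, fun e => ?_,
    fun v => ?_⟩
  · have h1 := key e 1 (by norm_num)
    have h2 := key e (-1) (by norm_num)
    push_cast at h1 h2
    constructor <;> linarith
  · have h1 := congrFun (current hM (hw b)) v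
    simp only [Finset.sum_apply, Pi.smul_apply, smul_eq_mul, ← hφ] at h1
    simp only [add_mul, sum_add_distrib, h1, w]
    ring

/-- rounding a real solution with a small error -/
lemma round_off (s t : E → V) (u : E → ℤ) (hu : ∀ e, 0 ≤ u e) (b : V → ℤ) (hb : ∑ v, b v = 0)
    (y : E → ℝ) {δ : ℝ} (hδ0 : 0 ≤ δ) (hδ : δ * Fintype.card E < 1)
    (hy : ∀ e, -δ ≤ y e ∧ y e ≤ u e + δ) (hyb : ∀ v, ∑ e, y e * inc s t e v = b v) :
    ∃ x : E → ℤ, (∀ e, 0 ≤ x e ∧ x e ≤ u e) ∧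
      ∀ v, ∑ e with s e = v, x e - ∑ e with t e = v, x e = b v := by
  refine Pool.Agent.Shared.HoffmanCirc.hoffman s t 0 u b hb hu fun X => ?_
  have h1 : ((∑ v ∈ X, b v : ℤ) : ℝ) ≤
      ∑ e, ((if s e ∈ X ∧ t e ∉ X then (u e : ℝ) else 0) + δ) := by
    push_cast
    rw [← sum_congr rfl fun v _ => hyb v, sum_comm]
    refine sum_le_sum fun e _ => ?_
    rw [← mul_sum]
    have := hy e
    by_cases h1 : s e ∈ X <;> by_cases h2 : t e ∈ X <;>
      simp [inc, sum_sub_distrib, Pi.single_apply, h1, h2, hδ0] <;> linarith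
  rw [sum_add_distrib, sum_const, card_univ, nsmul_eq_mul, ← sum_filter] at h1
  have h2 : ((∑ v ∈ X, b v : ℤ) : ℝ) < ((∑ e with s e ∈ X ∧ t e ∉ X, u e + 1 : ℤ) : ℝ) := by
    push_cast at h1 ⊢
    linarith
  have h3 := Int.cast_lt.mp h2
  simp only [Pi.zero_apply, sum_const_zero, sub_zero]
  omega

/-- The covering theorem. -/
theorem cover {s t : E → V} {a : E → ℕ} {m : ℕ} (hm : 0 < m) (h : Cond s t a m)
    (β : V → ℤ) (hβ : (m : ℤ) ∣ ∑ v, β v) :
    ∃ x : E → ℤ, (∀ e, 0 ≤ x e ∧ x e ≤ a e) ∧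
      ∀ v, (m : ℤ) ∣ ∑ e with s e = v, x e - ∑ e with t e = v, x e - β v := by
  rcases isEmpty_or_nonempty V with hV | ⟨⟨v0⟩⟩
  · exact ⟨0, fun e => by simp, fun v => hV.elim v⟩
  have hE : (0 : ℝ) ≤ Fintype.card E := Nat.cast_nonneg _
  have hδ : (0 : ℝ) < 1 / (Fintype.card E + 1) := by positivity
  obtain ⟨b, y, h1, h2, h3, h4⟩ := cover_real hm h
    (fun v => β v - if v = v0 then ∑ v, β v else 0) (by simp [sum_sub_distrib]) hδ
    (by rw [div_le_one (by positivity)]; linarith)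
  obtain ⟨x, h5, h6⟩ := round_off s t (fun e => a e) (fun e => by positivity) b h1 y hδ.le
    (by rw [div_mul_eq_mul_div, div_lt_one (by positivity)]; linarith)
    (fun e => by simpa using h3 e) h4
  refine ⟨x, h5, fun v => ?_⟩
  rw [h6]
  have h7 := h2 v
  split_ifs at h7
  · have h8 := dvd_sub h7 hβ
    rwa [show b v - (β v - ∑ v, β v) - ∑ v, β v = b v - β v by ring] at h8
  · simpa using h7

end Pool.Agent.Lib.MP_c8786f_co.Elec
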