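import Mathlib

/-!
Weighted Laplacians of a finite multigraph `s t : E → V`, and conductances whose leverage scores
(edge conductance times effective resistance) are small.
-/

namespace Pool.Agent.Lib.MP_c8786f_co.Elec

open Finset Matrix

set_option linter.unusedSectionVars false

variable {V E : Type} [Fintype V] [DecidableEq V] [Fintype E]

/-- incidence vector of an edge -/
def inc (s t : E → V) (e : E) : V → ℝ := Pi.single (s e) 1 - Pi.single (t e) 1

lemma inc_dot (s t : E → V) (e : E) (x : V → ℝ) : inc s t e ⬝ᵥ x = x (s e) - x (t e) := by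
  simp [inc, sub_dotProduct]

lemma dot_inc (s t : E → V) (e : E) (x : V → ℝ) : x ⬝ᵥ inc s t e = x (s e) - x (t e) := by
  rw [dotProduct_comm, inc_dot]

/-- weighted Laplacian plus the all-ones matrix -/
noncomputable def lap (s t : E → V) (c : E → ℝ) : Matrix V V ℝ :=
  vecMulVec 1 1 + ∑ e, c e • vecMulVec (inc s t e) (inc s t e)

lemma lap_mulVec (s t : E → V) (c : E → ℝ) (x : V → ℝ) :
    lap s t c *ᵥ x = (∑ v, x v) • (1 : V → ℝ) + ∑ e, (c e * (x (s e) - x (t e))) • inc s t e := by
  rw [lap, add_mulVec, sum_mulVec]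
  congr 1
  · rw [vecMulVec_mulVec]; ext v; simp [dotProduct]
  · refine sum_congr rfl fun e _ => ?_
    rw [smul_mulVec, vecMulVec_mulVec, inc_dot]
    ext v; simp; ring

lemma lap_form (s t : E → V) (c : E → ℝ) (x y : V → ℝ) :
    y ⬝ᵥ lap s t c *ᵥ x = (∑ v, x v) * (∑ v, y v) +
      ∑ e, c e * (x (s e) - x (t e)) * (y (s e) - y (t e)) := by
  rw [lap_mulVec, dotProduct_add, dotProduct_sum]
  congr 1
  · simp [dotProduct, mul_sum, mul_comm]
  · refine sum_congr rfl fun e _ => ?_
    rw [dotProduct_smul, dot_inc, smul_eq_mul]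

lemma lap_symm (s t : E → V) (c : E → ℝ) (x y : V → ℝ) :
    y ⬝ᵥ lap s t c *ᵥ x = x ⬝ᵥ lap s t c *ᵥ y := by
  rw [lap_form, lap_form, mul_comm]
  congr 1
  exact sum_congr rfl fun e _ => by ring

/-- the edge set `T` connects all vertices -/
def Conn (s t : E → V) (T : Finset E) : Prop :=
  ∀ x : V → ℝ, (∀ e ∈ T, x (s e) = x (t e)) → ∀ u v, x u = x v

lemma lap_posDef {s t : E → V} {T : Finset E} (hT : Conn s t T) {c : E → ℝ} (hc : ∀ e, 0 ≤ c e)
    (hcT : ∀ e ∈ T, 0 < c e) : (lap s t c).PosDef := by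
  refine PosDef.of_dotProduct_mulVec_pos ?_ fun x hx => ?_
  · ext u v
    simp [lap, Matrix.sum_apply, vecMulVec_apply, mul_comm]
  · rw [star_trivial, lap_form]
    have h1 : ∀ e ∈ (univ : Finset E), 0 ≤ c e * (x (s e) - x (t e)) * (x (s e) - x (t e)) :=
      fun e _ => by rw [mul_assoc]; exact mul_nonneg (hc e) (mul_self_nonneg _)
    have h2 := sum_nonneg h1
    have h3 := mul_self_nonneg (∑ v, x v)
    by_contra hn
    have h4 : ∑ e, c e * (x (s e) - x (t e)) * (x (s e) - x (t e)) = 0 := by linarith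
    have h5 : (∑ v, x v) * (∑ v, x v) = 0 := by linarith
    have h6 := hT x fun e he => by
      have := (sum_eq_zero_iff_of_nonneg h1).mp h4 e (mem_univ e)
      rw [mul_assoc, mul_eq_zero, mul_self_eq_zero] at this
      rcases this with h | h
      · exact absurd h (hcT e he).ne'
      · linarith
    apply hx
    ext u
    have h7 : ∑ v, x v = Fintype.card V * x u := by
      rw [sum_congr rfl fun v _ => h6 v u]; simp
    have h8 : (0 : ℝ) < Fintype.card V := by
      have : Nonempty V := ⟨u⟩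
      exact_mod_cast Fintype.card_pos
    rw [mul_self_eq_zero, h7, mul_eq_zero] at h5
    rcases h5 with h | h
    · exact absurd h h8.ne'
    · simpa using h

/-- effective resistance between the ends of an edge -/
noncomputable def res (s t : E → V) (c : E → ℝ) (e : E) : ℝ :=
  inc s t e ⬝ᵥ (lap s t c)⁻¹ *ᵥ inc s t e

lemma mul_inv_vec {M : Matrix V V ℝ} (hM : M.PosDef) (x : V → ℝ) : M *ᵥ (M⁻¹ *ᵥ x) = x := by
  rw [mulVec_mulVec, mul_nonsing_inv _ (isUnit_iff_ne_zero.mpr hM.det_pos.ne'), one_mulVec]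

lemma res_eq {s t : E → V} {c : E → ℝ} (hM : (lap s t c).PosDef) (e : E) :
    ∃ x : V → ℝ, res s t c e = x (s e) - x (t e) ∧ res s t c e = (∑ v, x v) * (∑ v, x v) +
      ∑ e, c e * (x (s e) - x (t e)) * (x (s e) - x (t e)) := by
  refine ⟨(lap s t c)⁻¹ *ᵥ inc s t e, inc_dot _ _ _ _, ?_⟩
  rw [← lap_form, mul_inv_vec hM, dotProduct_comm, res]

lemma res_nonneg {s t : E → V} {c : E → ℝ} (hM : (lap s t c).PosDef) (hc : ∀ e, 0 ≤ c e) (e : E) :
    0 ≤ res s t c e := by
  obtain ⟨x, -, h⟩ := res_eq hM e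
  rw [h]
  exact add_nonneg (mul_self_nonneg _) (sum_nonneg fun e _ => by
    rw [mul_assoc]; exact mul_nonneg (hc e) (mul_self_nonneg _))

lemma lev_le_one {s t : E → V} {c : E → ℝ} (hM : (lap s t c).PosDef) (hc : ∀ e, 0 ≤ c e) (e : E) :
    c e * res s t c e ≤ 1 := by
  obtain ⟨x, h1, h2⟩ := res_eq hM e
  have h3 : c e * (x (s e) - x (t e)) * (x (s e) - x (t e)) ≤
      ∑ e, c e * (x (s e) - x (t e)) * (x (s e) - x (t e)) :=
    single_le_sum (f := fun e => c e * (x (s e) - x (t e)) * (x (s e) - x (t e)))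
      (fun e _ => by rw [mul_assoc]; exact mul_nonneg (hc e) (mul_self_nonneg _)) (mem_univ e)
  have h4 := mul_self_nonneg (∑ v, x v)
  rw [← h1] at h3
  have h5 : c e * res s t c e * res s t c e ≤ res s t c e := by linarith
  rcases (res_nonneg hM hc e).eq_or_lt with h | h
  · rw [← h]; simp
  · by_contra hn
    push Not at hn
    nlinarith

lemma det_update [DecidableEq E] {s t : E → V} {c : E → ℝ} (hM : (lap s t c).PosDef) (e : E)
    (y : ℝ) : (lap s t (Function.update c e y)).det =
      (lap s t c).det * (1 + (y - c e) * res s t c e) := by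
  have h1 : lap s t (Function.update c e y) =
      lap s t c + vecMulVec ((y - c e) • inc s t e) (inc s t e) := by
    rw [lap, lap, add_assoc]
    congr 1
    have : ∀ x, Function.update c e y x • vecMulVec (inc s t x) (inc s t x) =
        c x • vecMulVec (inc s t x) (inc s t x) +
          if x = e then vecMulVec ((y - c e) • inc s t e) (inc s t e) else 0 := by
      intro x
      by_cases hx : x = e
      · subst hx
        ext u v
        simp [vecMulVec_apply]
        ring
      · simp [hx]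
    simp [this, sum_add_distrib]
  rw [h1, vecMulVec_eq Unit,
    det_add_replicateCol_mul_replicateRow (isUnit_iff_ne_zero.mpr hM.det_pos.ne')]
  congr 1
  rw [det_unique, Matrix.add_apply, Matrix.one_apply_eq, Matrix.mul_assoc, ← replicateCol_mulVec,
    replicateRow_mul_replicateCol_apply, mulVec_smul, dotProduct_smul, res, smul_eq_mul]

lemma det_lower [DecidableEq E] {s t : E → V} {T : Finset E} (hT : Conn s t T) {c : E → ℝ}
    (hc : ∀ e, 0 < c e) (hc1 : ∀ e, c e ≤ 1) :
    (lap s t fun e => if e ∈ T then 1 else 0).det * ∏ e ∈ T, c e ≤ (lap s t c).det := by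
  have key : ∀ S : Finset E, (lap s t fun e => if e ∈ T then 1 else 0).det * ∏ e ∈ S ∩ T, c e ≤
      (lap s t fun e => if e ∈ S then c e else if e ∈ T then 1 else 0).det := by
    intro S
    induction S using Finset.induction_on with
    | empty => simp
    | insert e S he ih =>
      set c0 : E → ℝ := fun e => if e ∈ S then c e else if e ∈ T then 1 else 0 with hc0
      have h0 : ∀ x, 0 ≤ c0 x := fun x => by
        simp only [hc0]; split_ifs
        · exact (hc x).le
        · norm_num
        · norm_num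
      have hM : (lap s t c0).PosDef := lap_posDef hT h0 fun x hx => by
        simp only [hc0, if_pos hx]; split_ifs
        · exact hc x
        · norm_num
      have h1 : (fun x => if x ∈ insert e S then c x else if x ∈ T then 1 else 0) =
          Function.update c0 e (c e) := by
        ext x
        by_cases hx : x = e
        · subst hx; simp
        · simp [hx, hc0]
      rw [h1, det_update hM]
      have h2 := res_nonneg hM h0 e
      have h3 := lev_le_one hM h0 e
      have h4 := hM.det_pos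
      by_cases heT : e ∈ T
      · have h5 : c0 e = 1 := by simp [hc0, he, heT]
        rw [insert_inter_of_mem heT, prod_insert (by simp [he]), h5]
        rw [h5] at h3
        have h6 : c e ≤ 1 + (c e - 1) * res s t c0 e := by nlinarith [hc1 e]
        calc _ = (lap s t fun e => if e ∈ T then 1 else 0).det * (∏ e ∈ S ∩ T, c e) * c e := by
              ring
          _ ≤ (lap s t c0).det * c e := mul_le_mul_of_nonneg_right ih (hc e).le
          _ ≤ _ := mul_le_mul_of_nonneg_left h6 h4.le
      · have h5 : c0 e = 0 := by simp [hc0, he, heT]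
        rw [insert_inter_of_notMem heT, h5]
        have h6 : 1 ≤ 1 + (c e - 0) * res s t c0 e := by nlinarith [hc e]
        calc _ ≤ (lap s t c0).det * 1 := by rw [mul_one]; exact ih
          _ ≤ _ := mul_le_mul_of_nonneg_left h6 h4.le
  simpa using key univ

/-- the partition condition: every partition into `r` parts (the fibres of a labelling) is crossed
by edges of total width at least `m (r - 1)` -/
def Cond (s t : E → V) (a : E → ℕ) (m : ℕ) : Prop :=
  ∀ q : V → V, m * ((univ.image q).card - 1) ≤ ∑ e with q (s e) ≠ q (t e), a e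

/-- Kruskal's bound for a light spanning tree. -/
lemma kruskal [DecidableEq E] {s t : E → V} {a : E → ℕ} {m : ℕ} (hm : 0 < m) (h : Cond s t a m)
    (k : E → ℕ) : ∀ (r : ℕ) (q : V → V), (univ.image q).card = r → ∃ T : Finset E,
      (∀ e ∈ T, q (s e) ≠ q (t e)) ∧ T.card ≤ r - 1 ∧
      (∀ x : V → ℝ, (∀ u v, q u = q v → x u = x v) → (∀ e ∈ T, x (s e) = x (t e)) →
        ∀ u v, x u = x v) ∧
      ∀ j : ℕ, (∀ e, q (s e) ≠ q (t e) → j ≤ k e) →
        m * ∑ e ∈ T, (k e - j) ≤ ∑ e with q (s e) ≠ q (t e), a e * (k e - j) := by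
  intro r
  induction r using Nat.strong_induction_on with
  | _ r ih =>
  intro q hq
  by_cases hne : (univ.filter fun e => q (s e) ≠ q (t e)).Nonempty
  swap
  · rw [not_nonempty_iff_eq_empty] at hne
    have h1 := h q
    rw [hne, sum_empty, hq] at h1
    have h2 : r - 1 = 0 := by
      rcases Nat.eq_zero_or_pos (r - 1) with h | h
      · exact h
      · exact absurd h1 (by have := Nat.mul_pos hm h; omega)
    refine ⟨∅, by simp, by simp, fun x hx _ u v => hx u v ?_, by simp⟩
    exact card_le_one.mp (by omega : (univ.image q).card ≤ 1) _ (mem_image_of_mem _ (mem_univ u))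
      _ (mem_image_of_mem _ (mem_univ v))
  obtain ⟨e, he, hmin⟩ := exists_min_image _ k hne
  simp only [mem_filter, mem_univ, true_and] at he hmin
  let q' : V → V := fun v => if q v = q (t e) then q (s e) else q v
  have hq' : ∀ u v, q u = q v → q' u = q' v := fun u v huv => by simp only [q', huv]
  have hcr : ∀ x, q' (s x) ≠ q' (t x) → q (s x) ≠ q (t x) := fun x hx hc => hx (hq' _ _ hc)
  have hlt : (univ.image q').card + 1 ≤ r := by
    have h1 : univ.image q' ⊆ (univ.image q).erase (q (t e)) := by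
      intro y hy
      obtain ⟨v, -, rfl⟩ := mem_image.mp hy
      simp only [q', mem_erase]
      split_ifs with hv
      · exact ⟨he, mem_image_of_mem _ (mem_univ _)⟩
      · exact ⟨hv, mem_image_of_mem _ (mem_univ _)⟩
    have h2 := card_le_card h1
    have h3 := card_erase_add_one (mem_image_of_mem q (mem_univ (t e)))
    omega
  have hpos : 1 ≤ (univ.image q').card := card_pos.mpr ⟨_, mem_image_of_mem _ (mem_univ (s e))⟩
  obtain ⟨T, h1, h2, h3, h4⟩ := ih _ (by omega) q' rfl
  have heT : e ∉ T := fun hc => h1 e hc (by simp [q'])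
  refine ⟨insert e T, ?_, ?_, ?_, ?_⟩
  · intro x hx
    rcases mem_insert.mp hx with rfl | hx
    · exact he
    · exact hcr x (h1 x hx)
  · rw [card_insert_of_notMem heT]; omega
  · intro x hx hxT
    refine h3 x (fun u v huv => ?_) fun y hy => hxT y (mem_insert_of_mem hy)
    have hst := hxT e (mem_insert_self _ _)
    simp only [q'] at huv
    split_ifs at huv with hu hv hv
    · exact hx _ _ (hu.trans hv.symm)
    · rw [hx _ _ hu, ← hst]; exact hx _ _ huv
    · rw [hx _ _ hv, ← hst]; exact hx _ _ huv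
    · exact hx _ _ huv
  · intro j hj
    have hje := hj e he
    have h5 := h4 (k e) fun x hx => hmin x (hcr x hx)
    have h6 : ∑ x with q' (s x) ≠ q' (t x), a x * (k x - k e) ≤
        ∑ x with q (s x) ≠ q (t x), a x * (k x - k e) :=
      sum_le_sum_of_subset fun x hx => by
        simp only [mem_filter, mem_univ, true_and] at hx ⊢; exact hcr x hx
    have h7 : ∑ x with q (s x) ≠ q (t x), a x * (k x - j) =
        ∑ x with q (s x) ≠ q (t x), a x * (k x - k e) +
          (∑ x with q (s x) ≠ q (t x), a x) * (k e - j) := by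
      rw [sum_mul, ← sum_add_distrib]
      refine sum_congr rfl fun x hx => ?_
      have := hmin x (mem_filter.mp hx).2
      rw [← mul_add]; congr 1; omega
    have h8 : ∑ x ∈ insert e T, (k x - j) = ∑ x ∈ T, (k x - k e) + (T.card + 1) * (k e - j) := by
      rw [sum_insert heT, add_mul, one_mul, ← smul_eq_mul, ← sum_const, add_comm, ← add_assoc,
        ← sum_add_distrib]
      congr 1
      refine sum_congr rfl fun x hx => ?_
      have := hmin x (hcr x (h1 x hx))
      omega
    have h9 := h q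
    rw [hq] at h9
    have h10 : m * (T.card + 1) ≤ ∑ x with q (s x) ≠ q (t x), a x :=
      le_trans (Nat.mul_le_mul_left _ (by omega)) h9
    rw [h7, h8, mul_add, ← mul_assoc]
    exact add_le_add (h5.trans h6) (Nat.mul_le_mul_right _ h10)

lemma exists_tree [DecidableEq E] {s t : E → V} {a : E → ℕ} {m : ℕ} (hm : 0 < m)
    (h : Cond s t a m) (k : E → ℕ) :
    ∃ T : Finset E, Conn s t T ∧ m * ∑ e ∈ T, k e ≤ ∑ e, a e * k e := by
  obtain ⟨T, -, -, h1, h2⟩ := kruskal hm h k _ id rfl
  refine ⟨T, fun x hx => h1 x (fun u v huv => by simp only [id] at huv; rw [huv]) hx, ?_⟩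
  have := h2 0 fun _ _ => Nat.zero_le _
  simp only [Nat.sub_zero] at this
  exact this.trans (sum_le_sum_of_subset (filter_subset _ _))

/-- Conductances with small leverage scores. -/
theorem exists_cond {s t : E → V} {a : E → ℕ} {m : ℕ} (hm : 0 < m) (h : Cond s t a m)
    {δ : ℝ} (hδ : 0 < δ) (hδ1 : δ ≤ 1) : ∃ c : E → ℝ, (∀ e, 0 < c e ∧ c e ≤ 1) ∧ (lap s t c).PosDef ∧
      ∀ e, m * (c e * res s t c e) ≤ a e + δ := by
  classical
  obtain ⟨A, hA⟩ : ∃ A : ℕ, ∀ e, a e ≤ A :=
    ⟨∑ e, a e, fun e => single_le_sum (fun _ _ => Nat.zero_le _) (mem_univ e)⟩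
  have hm' : (1 : ℝ) ≤ m := by exact_mod_cast hm
  have hA0 : (0 : ℝ) ≤ A := Nat.cast_nonneg _
  set ε : ℝ := δ / (2 * m * (A + 1)) with hε
  have hden : (2 : ℝ) ≤ 2 * m * (A + 1) := by nlinarith
  have hε0 : 0 < ε := by positivity
  have hεe : ε * (2 * m * (A + 1)) = δ := by rw [hε]; field_simp
  have hε1 : ε ≤ 1 / 2 := by nlinarith
  set η : ℝ := 1 - ε with hη
  have hη0 : 0 < η := by linarith
  have hη1 : η ≤ 1 := by linarith
  let c : (E → ℕ) → E → ℝ := fun k e => η ^ (m * k e)
  have hc : ∀ k e, 0 < c k e ∧ c k e ≤ 1 := fun k e => ⟨pow_pos hη0 _, pow_le_one₀ hη0.le hη1⟩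
  obtain ⟨T0, hT0, -⟩ := exists_tree hm h 0
  have hM : ∀ k, (lap s t (c k)).PosDef := fun k =>
    lap_posDef hT0 (fun e => (hc k e).1.le) fun e _ => (hc k e).1
  let Φ : (E → ℕ) → ℝ := fun k => (lap s t (c k)).det / η ^ (∑ e, a e * k e)
  obtain ⟨T1, hT1, hT1'⟩ := exists_min_image (univ.filter fun T : Finset E => Conn s t T)
    (fun T => (lap s t fun e => if e ∈ T then 1 else 0).det) ⟨T0, by simpa using hT0⟩
  set κ := (lap s t fun e => if e ∈ T1 then 1 else 0).det with hκ
  have hκ0 : 0 < κ := (lap_posDef (mem_filter.mp hT1).2 (fun e => by split_ifs <;> norm_num)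
    fun e he => by rw [if_pos he]; norm_num).det_pos
  have hΦ : ∀ k, κ ≤ Φ k := by
    intro k
    obtain ⟨T, hT, hk⟩ := exists_tree hm h k
    have h1 := det_lower hT (fun e => (hc k e).1) fun e => (hc k e).2
    have h2 := hT1' T (by simpa using hT)
    have h3 : ∏ e ∈ T, c k e = η ^ (m * ∑ e ∈ T, k e) := by
      rw [mul_sum, ← prod_pow_eq_pow_sum]
    have h4 : η ^ (∑ e, a e * k e) ≤ η ^ (m * ∑ e ∈ T, k e) := pow_le_pow_of_le_one hη0.le hη1 hk
    rw [le_div_iff₀ (pow_pos hη0 _)]
    rw [h3] at h1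
    calc _ ≤ κ * η ^ (m * ∑ e ∈ T, k e) := mul_le_mul_of_nonneg_left h4 hκ0.le
      _ ≤ _ := mul_le_mul_of_nonneg_right h2 (pow_pos hη0 _).le
      _ ≤ _ := h1
  have hbdd : BddBelow (Set.range Φ) := ⟨κ, by rintro _ ⟨k, rfl⟩; exact hΦ k⟩
  have hinf : κ ≤ iInf Φ := le_ciInf hΦ
  set γ : ℝ := 1 + δ * ε / 4 with hγ
  have hγ1 : 1 < γ := by rw [hγ]; have : 0 < δ * ε / 4 := by positivity
                         linarith
  obtain ⟨k, hk⟩ : ∃ k, Φ k < γ * iInf Φ := exists_lt_of_ciInf_lt (by nlinarith)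
  refine ⟨c k, hc k, hM k, fun e => ?_⟩
  set p := c k e * res s t (c k) e with hp
  have hp0 : 0 ≤ p := mul_nonneg (hc k e).1.le (res_nonneg (hM k) (fun e => (hc k e).1.le) e)
  have h1 : c (Function.update k e (k e + 1)) = Function.update (c k) e (η ^ m * c k e) := by
    ext x
    by_cases hx : x = e
    · subst hx; simp [c, mul_add, pow_add, mul_comm]
    · simp [c, hx]
  have h2 : ∑ x, a x * Function.update k e (k e + 1) x = ∑ x, a x * k x + a e := by
    have : ∀ x, a x * Function.update k e (k e + 1) x = a x * k x + if x = e then a e else 0 := by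
      intro x
      by_cases hx : x = e
      · subst hx; simp [mul_add]
      · simp [hx]
    simp [this, sum_add_distrib]
  have h3 : Φ (Function.update k e (k e + 1)) = Φ k * (1 - (1 - η ^ m) * p) / η ^ a e := by
    simp only [Φ]
    rw [h1, h2, det_update (hM k), pow_add, hp]
    field_simp
    ring
  have h4 := ciInf_le hbdd (Function.update k e (k e + 1))
  have hΦk : 0 < Φ k := hκ0.trans_le (hΦ k)
  have h5 : η ^ a e ≤ γ * (1 - (1 - η ^ m) * p) := by
    rw [h3, le_div_iff₀ (pow_pos hη0 _)] at h4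
    have h6 : Φ k * η ^ a e ≤ Φ k * (γ * (1 - (1 - η ^ m) * p)) := by
      calc Φ k * η ^ a e ≤ γ * iInf Φ * η ^ a e :=
            mul_le_mul_of_nonneg_right hk.le (pow_pos hη0 _).le
        _ = γ * (iInf Φ * η ^ a e) := by ring
        _ ≤ γ * (Φ k * (1 - (1 - η ^ m) * p)) := mul_le_mul_of_nonneg_left h4 (by linarith)
        _ = _ := by ring
    exact le_of_mul_le_mul_left h6 hΦk
  have h6 : 1 - a e * ε ≤ η ^ a e := by
    have := one_add_mul_le_pow (a := -ε) (by linarith) (a e)
    rw [hη, sub_eq_add_neg 1 ε]; linarith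
  have h7 : η ^ m * (1 + m * ε) ≤ 1 := by
    have h71 := one_add_mul_le_pow (a := ε) (by linarith) m
    have h72 : η ^ m * (1 + ε) ^ m ≤ 1 := by
      rw [← mul_pow]; exact pow_le_one₀ (by positivity) (by rw [hη]; nlinarith)
    exact le_trans (mul_le_mul_of_nonneg_left h71 (pow_pos hη0 _).le) h72
  have hηm : η ^ m ≤ 1 := pow_le_one₀ hη0.le hη1
  have h8 : (1 - η ^ m) * p ≤ a e * ε + δ * ε / 4 := by
    have h81 : 0 ≤ (1 - η ^ m) * p := mul_nonneg (by linarith) hp0
    nlinarith
  have h9 : m * ε * p ≤ (1 - η ^ m) * p * (1 + m * ε) := by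
    have : m * ε ≤ (1 - η ^ m) * (1 + m * ε) := by nlinarith
    nlinarith
  have hae : (a e : ℝ) ≤ A := by exact_mod_cast hA e
  have hae0 : (0 : ℝ) ≤ a e := Nat.cast_nonneg _
  have h10 : m * ε * p ≤ (a e * ε + δ * ε / 4) * (1 + m * ε) :=
    h9.trans (mul_le_mul_of_nonneg_right h8 (by positivity))
  have h11 : m * p ≤ (a e + δ / 4) * (1 + m * ε) := by
    have : ε * (m * p) ≤ ε * ((a e + δ / 4) * (1 + m * ε)) := by linarith
    exact le_of_mul_le_mul_left this hε0
  have h12 : (a e + δ / 4) * (m * ε) ≤ (A + 1) * (m * ε) :=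
    mul_le_mul_of_nonneg_right (by linarith) (by positivity)
  nlinarith

end Pool.Agent.Lib.MP_c8786f_co.Elec
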