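import Pool.Agent.Lib.MP_c8786f_co.Elec.Split

/-!
Circular flows of graphs without small odd edge cuts.
-/

namespace Pool.Agent.Lib.MP_c8786f_co.Elec

open Finset

set_option linter.unusedSectionVars false

variable {V E : Type} [Fintype V] [DecidableEq V] [Fintype E]

lemma sum_inside {s t : E → V} {X : Finset V} {M : Type} [AddCommMonoid M]
    (g : {e // s e ∈ X ∧ t e ∈ X} → M) :
    ∑ e, (if h : s e ∈ X ∧ t e ∈ X then g ⟨e, h⟩ else 0) = ∑ e, g e := by
  classical
  rw [← sum_filter_add_sum_filter_not univ (fun e => s e ∈ X ∧ t e ∈ X),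
    sum_eq_zero (s := univ.filter fun e => ¬(s e ∈ X ∧ t e ∈ X))
      (fun e he => dif_neg (mem_filter.mp he).2), add_zero,
    sum_subtype (p := fun e => s e ∈ X ∧ t e ∈ X) _ (by simp)]
  exact sum_congr rfl fun e _ => dif_pos e.2

/-- Extending a flow of the contraction of `X` into `X`. -/
lemma extend {s t : E → V} {A a : ℕ} (hm : 0 < 2 * A + a) {X : Finset V} {x0 : V} (hx0 : x0 ∈ X)
    (hC : Cond (fun e : {e // s e ∈ X ∧ t e ∈ X} => (⟨s e, e.2.1⟩ : X))
      (fun e => ⟨t e, e.2.2⟩) (fun _ => a) (2 * A + a))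
    (h : MFlow (fun e => if s e ∈ X then x0 else s e) (fun e => if t e ∈ X then x0 else t e) A a) :
    MFlow s t A a := by
  classical
  obtain ⟨x, hx, hx'⟩ := h
  let x1 : E → ℤ := fun e => if s e ∈ X ∧ t e ∈ X then A else x e
  have hsum : ∑ v : X, bd s t x1 v = bd (fun e => if s e ∈ X then x0 else s e)
      (fun e => if t e ∈ X then x0 else t e) x x0 := by
    rw [sum_coe_sort X (bd s t x1)]
    simp only [bd]
    rw [sum_comm]
    refine sum_congr rfl fun e _ => ?_
    have n : ∀ y, y ∉ X → y ≠ x0 := fun y hy h => hy (h ▸ hx0)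
    by_cases h1 : s e ∈ X <;> by_cases h2 : t e ∈ X <;>
      simp [tm, sum_sub_distrib, x1, h1, h2, n]
  obtain ⟨z, hz, hz'⟩ := cover hm hC (fun v => -bd s t x1 v) (by
    rw [sum_neg_distrib, hsum]; exact (dvd_neg).mpr (hx' x0))
  let z1 : E → ℤ := fun e => if h : s e ∈ X ∧ t e ∈ X then z ⟨e, h⟩ else 0
  refine ⟨fun e => x1 e + z1 e, fun e => ?_, fun w => ?_⟩
  · by_cases h : s e ∈ X ∧ t e ∈ X
    · have := hz ⟨e, h⟩
      simp only [x1, z1, if_pos h, dif_pos h]
      omega
    · simp only [x1, z1, if_neg h, dif_neg h, add_zero]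
      exact hx e
  · by_cases hw : w ∈ X
    · have h1 := hz' ⟨w, hw⟩
      rw [← bd_eq] at h1
      have h2 : bd s t (fun e => x1 e + z1 e) w = bd (fun e : {e // s e ∈ X ∧ t e ∈ X} =>
          (⟨s e, e.2.1⟩ : X)) (fun e => ⟨t e, e.2.2⟩) z ⟨w, hw⟩ - -bd s t x1 w := by
        simp only [bd]
        rw [← sum_inside, sub_neg_eq_add, ← sum_add_distrib]
        refine sum_congr rfl fun e _ => ?_
        by_cases h : s e ∈ X ∧ t e ∈ X
        · simp only [z1, dif_pos h, tm, Subtype.mk.injEq]
          split_ifs <;> ring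
        · simp [z1, dif_neg h]
      rwa [h2]
    · have h1 := hx' w
      have h2 : bd s t (fun e => x1 e + z1 e) w = bd (fun e => if s e ∈ X then x0 else s e)
          (fun e => if t e ∈ X then x0 else t e) x w := by
        refine sum_congr rfl fun e _ => ?_
        have n : ∀ y, y ∈ X → y ≠ w := fun y hy h => hw (h ▸ hy)
        by_cases h1 : s e ∈ X <;> by_cases h2 : t e ∈ X <;>
          simp [tm, x1, z1, h1, h2, n, n x0 hx0]
      rwa [h2]

/-- Counting the edges crossing a partition of `X`. -/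
lemma count_cross {s t : E → V} {k : ℕ} {X : Finset V}
    (hX : ∀ Y ⊆ X, Y.Nonempty → Y ≠ X → k ≤ cut s t Y) (q : X → X)
    (hq : 2 ≤ (univ.image q).card) :
    k * (univ.image q).card ≤ cut s t X + 2 * (univ.filter fun e : {e // s e ∈ X ∧ t e ∈ X} =>
      q ⟨s e, e.2.1⟩ ≠ q ⟨t e, e.2.2⟩).card := by
  classical
  let l : V → Option X := fun v => if h : v ∈ X then some (q ⟨v, h⟩) else none
  let Y : X → Finset V := fun y => univ.filter fun v => l v = some y
  have h1 : ∀ y ∈ univ.image q, k ≤ cut s t (Y y) := by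
    intro y hy
    obtain ⟨v, -, rfl⟩ := mem_image.mp hy
    refine hX _ (fun w hw => ?_) ⟨v, by simp [Y, l]⟩ fun h => ?_
    · by_contra hn
      simp [Y, l, hn] at hw
    · have : univ.image q ⊆ {q v} := by
        intro y hy
        obtain ⟨w, -, rfl⟩ := mem_image.mp hy
        have : w.1 ∈ Y (q v) := by rw [h]; exact w.2
        simpa [Y, l] using this
      have := card_le_card this
      rw [card_singleton] at this
      omega
  have h2 := card_nsmul_le_sum _ _ _ h1
  rw [smul_eq_mul, mul_comm] at h2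
  refine h2.trans ?_
  rw [card_filter, ← sum_inside, mul_sum]
  simp only [cut]
  rw [sum_comm, ← sum_add_distrib]
  refine sum_le_sum fun e _ => ?_
  have key : ∀ (a b : Option X), ∑ y ∈ univ.image q, (if (a = some y ↔ b = some y) then 0 else 1) ≤
      (if a ≠ b ∧ a ≠ none then 1 else 0) + (if a ≠ b ∧ b ≠ none then 1 else 0) := by
    intro a b
    have k1 : ∀ (c : Option X) (P : Prop) [Decidable P], ∑ y ∈ univ.image q,
        (if P ∧ c = some y then 1 else 0) ≤ if P ∧ c ≠ none then 1 else 0 := by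
      intro c P _
      by_cases hP : P
      · cases c with
        | none => simp
        | some c =>
          simp only [hP, true_and, Option.some.injEq, ne_eq, reduceCtorEq, not_false_eq_true,
            if_true, sum_ite_eq]
          split_ifs <;> simp
      · simp [hP]
    refine le_trans ?_ (add_le_add (k1 a (a ≠ b)) (k1 b (a ≠ b)))
    rw [← sum_add_distrib]
    refine sum_le_sum fun y _ => ?_
    by_cases h1 : a = some y <;> by_cases h2 : b = some y
    · simp [h1, h2]
    · simp [h1, h2, Ne.symm h2]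
    · simp [h1, h2]
    · simp [h1, h2]
  have k2 := key (l (s e)) (l (t e))
  simp only [chi, Y, mem_filter, mem_univ, true_and]
  refine k2.trans ?_
  by_cases h1 : s e ∈ X <;> by_cases h2 : t e ∈ X <;> simp [l, h1, h2]
  split_ifs <;> simp

theorem odd_mflow {j n : ℕ} (hk : Odd (j + 2)) (hn : Fintype.card V ≤ n + 1) :
    ∀ (N : ℕ) (s t : E → V), nl s t = N → (∀ X, Odd (cut s t X) → j + 2 ≤ cut s t X) →
      MFlow s t (j * n + 1) (4 * n) := by
  classical
  intro N
  induction N using Nat.strong_induction_on with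
  | _ N ih =>
  intro s t hN H
  set W := univ.filter fun v => cut s t {v} ≠ 0 with hW
  have hWe : ∀ e, s e ≠ t e → s e ∈ W ∧ t e ∈ W := by
    intro e he
    simp only [hW, mem_filter, mem_univ, true_and, cut, ne_eq, sum_eq_zero_iff, not_forall]
    exact ⟨⟨e, trivial, by simp [chi, he.symm]⟩, ⟨e, trivial, by simp [chi, he]⟩⟩
  by_cases hW0 : W = ∅
  · refine ⟨fun _ => ((j * n + 1 : ℕ) : ℤ), fun e => ⟨le_rfl, by simp⟩, fun w => ?_⟩
    have : bd s t (fun _ => ((j * n + 1 : ℕ) : ℤ)) w = 0 := sum_eq_zero fun e _ => by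
      have : s e = t e := by
        by_contra h
        have := (hWe e h).1
        simp [hW0] at this
      simp [tm, this]
    rw [this]; exact dvd_zero _
  have hWc : cut s t W = 0 := sum_eq_zero fun e _ => by
    by_cases h : s e = t e
    · simp [chi, h]
    · simp [chi, (hWe e h).1, (hWe e h).2]
  obtain ⟨X, hX, hmin⟩ := exists_min_image (univ.filter fun X : Finset V =>
    X ⊆ W ∧ X.Nonempty ∧ cut s t X < j + 2) card
    ⟨W, mem_filter.mpr ⟨mem_univ _, subset_rfl, nonempty_iff_ne_empty.mpr hW0, by omega⟩⟩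
  obtain ⟨-, hXW, ⟨x0, hx0⟩, hXk⟩ := mem_filter.mp hX
  have hY : ∀ Y ⊆ X, Y.Nonempty → Y ≠ X → j + 2 ≤ cut s t Y := by
    intro Y h1 h2 h3
    by_contra hc
    have := hmin Y (mem_filter.mpr ⟨mem_univ _, h1.trans hXW, h2, by omega⟩)
    have := card_lt_card (Finset.ssubset_iff_subset_ne.mpr ⟨h1, h3⟩)
    omega
  by_cases hs : X = {x0}
  · subst hs
    have h1 : Even (cut s t {x0}) := by
      by_contra h
      have := H _ (Nat.not_even_iff_odd.mp h)
      omega
    obtain ⟨s', t', h2, h3, h4⟩ := split_step (A := j * n + 1) (a := 4 * n) hk H x0 h1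
      (mem_filter.mp (hXW hx0)).2
    exact h4 (ih _ (hN ▸ h2) s' t' rfl h3)
  refine extend (by omega) hx0 ?_ (ih _ ?_ _ _ rfl ?_)
  · intro q
    by_cases hq : 2 ≤ (univ.image q).card
    swap
    · rw [show (univ.image q).card - 1 = 0 by omega]; simp
    have h1 := count_cross hY q hq
    have h2 : (univ.image q).card ≤ n + 1 :=
      (card_le_univ _).trans ((Fintype.card_subtype_le _).trans hn)
    rw [sum_const, smul_eq_mul]
    obtain ⟨r, hr⟩ : ∃ r, (univ.image q).card = r + 1 := ⟨_, (Nat.sub_add_cancel (by omega)).symm⟩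
    rw [hr] at h1 h2 ⊢
    simp only [Nat.add_sub_cancel]
    generalize (univ.filter fun e : {e // s e ∈ X ∧ t e ∈ X} =>
      q ⟨s e, e.2.1⟩ ≠ q ⟨t e, e.2.2⟩).card = c at h1 ⊢
    have h3 : (j + 2) * r + 1 ≤ 2 * c := by nlinarith
    have h4 : r ≤ n := by omega
    nlinarith [Nat.mul_le_mul_left (2 * n) h3]
  · rw [← hN]
    have h1 := hY {x0} (by simpa using hx0) (singleton_nonempty _) (Ne.symm hs)
    obtain ⟨e, he⟩ : ∃ e, chi X (s e) (t e) < chi {x0} (s e) (t e) := by
      by_contra hc
      push Not at hc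
      have : cut s t {x0} ≤ cut s t X := sum_le_sum fun e _ => hc e
      omega
    have he' : s e ≠ t e ∧ s e ∈ X ∧ t e ∈ X := by
      by_cases h1 : s e = x0 <;> by_cases h2 : t e = x0 <;> by_cases h3 : s e ∈ X <;>
        by_cases h4 : t e ∈ X <;> simp_all [chi, eq_comm (a := x0)]
    refine card_lt_card ⟨fun x hx => ?_, fun h => ?_⟩
    · simp only [mem_filter, mem_univ, true_and] at hx ⊢
      exact fun h => hx (by rw [h])
    · have := h (mem_filter.mpr ⟨mem_univ e, he'.1⟩)
      simp [he'.2.1, he'.2.2] at this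
  · intro Y
    have : cut (fun e => if s e ∈ X then x0 else s e) (fun e => if t e ∈ X then x0 else t e) Y =
        cut s t (univ.filter fun v => (if v ∈ X then x0 else v) ∈ Y) :=
      sum_congr rfl fun e _ => by simp only [chi, mem_filter, mem_univ, true_and]
    rw [this]
    exact H _

end Pool.Agent.Lib.MP_c8786f_co.Elec
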