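import Pool.Agent.Lib.MP_c8786f_co.Elec.Cover

/-!
Edge cuts, flows modulo `m`, and splitting off at a vertex of even degree while keeping all odd
cuts large.
-/

namespace Pool.Agent.Lib.MP_c8786f_co.Elec

open Finset

set_option linter.unusedSectionVars false

variable {V E : Type} [Fintype V] [DecidableEq V] [Fintype E]

/-- indicator that exactly one of `a`, `b` lies in `X` -/
def chi (X : Finset V) (a b : V) : ℕ := if (a ∈ X ↔ b ∈ X) then 0 else 1

/-- indicator that the pair `a`, `b` joins `X` to `Y` -/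
def bet (X Y : Finset V) (a b : V) : ℕ := if (a ∈ X ∧ b ∈ Y) ∨ (a ∈ Y ∧ b ∈ X) then 1 else 0

/-- size of an edge cut -/
def cut (s t : E → V) (X : Finset V) : ℕ := ∑ e, chi X (s e) (t e)

lemma cut_eq (s t : E → V) (X : Finset V) :
    cut s t X = (univ.filter fun e => ¬(s e ∈ X ↔ t e ∈ X)).card := by
  rw [card_filter]
  exact sum_congr rfl fun e _ => by simp only [chi, ite_not]

lemma cut_compl (s t : E → V) (X : Finset V) : cut s t Xᶜ = cut s t X :=
  sum_congr rfl fun e _ => by simp only [chi, mem_compl, not_iff_not]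

lemma cut_inter_union (s t : E → V) (X Y : Finset V) : cut s t X + cut s t Y =
    cut s t (X ∩ Y) + cut s t (X ∪ Y) + 2 * ∑ e, bet (X \ Y) (Y \ X) (s e) (t e) := by
  simp only [cut, mul_sum, ← sum_add_distrib]
  refine sum_congr rfl fun e _ => ?_
  by_cases h1 : s e ∈ X <;> by_cases h2 : t e ∈ X <;> by_cases h3 : s e ∈ Y <;>
    by_cases h4 : t e ∈ Y <;> simp [chi, bet, h1, h2, h3, h4]

lemma cut_sdiff (s t : E → V) (X Y : Finset V) : cut s t X + cut s t Y =
    cut s t (X \ Y) + cut s t (Y \ X) + 2 * ∑ e, bet (X ∩ Y) (X ∪ Y)ᶜ (s e) (t e) := by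
  simp only [cut, mul_sum, ← sum_add_distrib]
  refine sum_congr rfl fun e _ => ?_
  by_cases h1 : s e ∈ X <;> by_cases h2 : t e ∈ X <;> by_cases h3 : s e ∈ Y <;>
    by_cases h4 : t e ∈ Y <;> simp [chi, bet, h1, h2, h3, h4]

lemma cut_parts (s t : E → V) (X Y : Finset V) : cut s t (X ∩ Y) + cut s t (X \ Y) =
    cut s t X + 2 * ∑ e, bet (X ∩ Y) (X \ Y) (s e) (t e) := by
  simp only [cut, mul_sum, ← sum_add_distrib]
  refine sum_congr rfl fun e _ => ?_
  by_cases h1 : s e ∈ X <;> by_cases h2 : t e ∈ X <;> by_cases h3 : s e ∈ Y <;>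
    by_cases h4 : t e ∈ Y <;> simp [chi, bet, h1, h2, h3, h4]

/-- the edge `e` joins `v` and `u` -/
def At (s t : E → V) (v : V) (e : E) (u : V) : Prop := (s e = v ∧ t e = u) ∨ (s e = u ∧ t e = v)

/-- Splitting lemma at a vertex of even degree. -/
lemma exists_split {s t : E → V} {k : ℕ} (hk : Odd k)
    (H : ∀ X, Odd (cut s t X) → k ≤ cut s t X) (v : V) (hv : Even (cut s t {v}))
    (hv0 : cut s t {v} ≠ 0) : ∃ e1 e2 u1 u2, e1 ≠ e2 ∧ u1 ≠ v ∧ u2 ≠ v ∧ At s t v e1 u1 ∧
      At s t v e2 u2 ∧ ∀ X, v ∉ X → u1 ∈ X → u2 ∈ X → cut s t X ≠ k := by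
  classical
  by_contra hn
  push Not at hn
  set D := univ.filter fun e => ¬(s e ∈ ({v} : Finset V) ↔ t e ∈ ({v} : Finset V)) with hD
  let o : E → V := fun e => if s e = v then t e else s e
  have ho : ∀ e ∈ D, o e ≠ v ∧ At s t v e (o e) := by
    intro e he
    simp only [hD, mem_filter, mem_univ, true_and, mem_singleton] at he
    by_cases h : s e = v
    · simp only [o, if_pos h]; exact ⟨by tauto, Or.inl ⟨h, rfl⟩⟩
    · simp only [o, if_neg h]; exact ⟨h, Or.inr ⟨rfl, by tauto⟩⟩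
  have bad : ∀ e1 ∈ D, ∀ e2 ∈ D, e1 ≠ e2 → ∃ X, v ∉ X ∧ o e1 ∈ X ∧ o e2 ∈ X ∧ cut s t X = k :=
    fun e1 h1 e2 h2 h => hn e1 e2 _ _ h (ho e1 h1).1 (ho e2 h2).1 (ho e1 h1).2 (ho e2 h2).2
  have hcard : 1 < D.card := by
    rw [hD, ← cut_eq]
    obtain ⟨r, hr⟩ := hv
    omega
  obtain ⟨f1, hf1, f2, hf2, hf⟩ := one_lt_card.mp hcard
  obtain ⟨X0, hX0⟩ := bad f1 hf1 f2 hf2 hf
  obtain ⟨X, hX, hmax⟩ := exists_max_image (univ.filter fun X : Finset V =>
    v ∉ X ∧ cut s t X = k ∧ ∃ e ∈ D, o e ∈ X) card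
    ⟨X0, mem_filter.mpr ⟨mem_univ _, hX0.1, hX0.2.2.2, f1, hf1, hX0.2.1⟩⟩
  obtain ⟨-, hvX, hXk, e1, he1, he1X⟩ := mem_filter.mp hX
  by_cases hall : ∀ e ∈ D, o e ∈ X
  · have h1 : cut s t (insert v X) + cut s t {v} = cut s t X := by
      simp only [cut, ← sum_add_distrib]
      refine sum_congr rfl fun e _ => ?_
      have h2 := hall e
      simp only [hD, mem_filter, mem_univ, true_and, mem_singleton, o] at h2
      by_cases h3 : s e = v <;> by_cases h4 : t e = v <;> simp_all [chi]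
    have h2 := H (insert v X) (by
      rw [hXk] at h1
      obtain ⟨r, hr⟩ := hv
      obtain ⟨r', hr'⟩ := hk
      exact ⟨r' - r, by omega⟩)
    omega
  push Not at hall
  obtain ⟨e2, he2, he2X⟩ := hall
  obtain ⟨Y, hvY, h1Y, h2Y, hYk⟩ := bad e1 he1 e2 he2 (fun h => he2X (h ▸ he1X))
  have k1 := cut_inter_union s t X Y
  have k2 := cut_sdiff s t X Y
  have k3 := cut_parts s t X Y
  have k4 := cut_parts s t Y X
  rw [inter_comm Y X] at k4
  have k5 : 1 ≤ ∑ e, bet (X ∩ Y) (X ∪ Y)ᶜ (s e) (t e) := by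
    refine le_trans ?_ (single_le_sum (fun _ _ => Nat.zero_le _) (mem_univ e1))
    rcases (ho e1 he1).2 with ⟨h1, h2⟩ | ⟨h1, h2⟩ <;> simp [bet, h1, h2, he1X, h1Y, hvX, hvY]
  obtain ⟨r, hr⟩ := hk
  rcases Nat.even_or_odd (cut s t (X ∩ Y)) with h | h
  · obtain ⟨r', hr'⟩ := h
    have k6 := H (X \ Y) (Nat.odd_iff.mpr (by omega))
    have k7 := H (Y \ X) (Nat.odd_iff.mpr (by omega))
    omega
  · have k6 := H _ h
    obtain ⟨r', hr'⟩ := h
    have k7 := H (X ∪ Y) (Nat.odd_iff.mpr (by omega))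
    have k8 := hmax (X ∪ Y) (mem_filter.mpr ⟨mem_univ _, by simp [hvX, hvY], by omega, e1, he1,
      mem_union_left _ he1X⟩)
    have k9 : X.card < (X ∪ Y).card :=
      card_lt_card ⟨subset_union_left, fun h => he2X (h (mem_union_right _ h2Y))⟩
    omega

/-- contribution of an edge from `a` to `b` with value `y` to the boundary at `w` -/
def tm (a b w : V) (y : ℤ) : ℤ := (if a = w then y else 0) - (if b = w then y else 0)

/-- boundary -/
def bd (s t : E → V) (x : E → ℤ) (w : V) : ℤ := ∑ e, tm (s e) (t e) w (x e)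

lemma bd_eq (s t : E → V) (x : E → ℤ) (w : V) :
    bd s t x w = ∑ e with s e = w, x e - ∑ e with t e = w, x e := by
  simp only [bd, tm, sum_sub_distrib, sum_filter]

/-- a flow modulo `2 A + a` with values in `[A, A + a]` -/
def MFlow (s t : E → V) (A a : ℕ) : Prop :=
  ∃ x : E → ℤ, (∀ e, (A : ℤ) ≤ x e ∧ x e ≤ A + a) ∧ ∀ w, ((2 * A + a : ℕ) : ℤ) ∣ bd s t x w

lemma sum_two [DecidableEq E] {M : Type} [AddCommMonoid M] {f g : E → M} {e1 e2 : E}
    (h12 : e1 ≠ e2) (h : ∀ e, e ≠ e1 → e ≠ e2 → f e = g e) :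
    ∑ e, f e + (g e1 + g e2) = ∑ e, g e + (f e1 + f e2) := by
  have key : ∀ φ : E → M, ∑ e, φ e = ∑ e ∈ univ \ {e1, e2}, φ e + (φ e1 + φ e2) := fun φ => by
    rw [← sum_pair h12, sum_sdiff (subset_univ _)]
  rw [key f, key g, sum_congr rfl fun e he => h e (by simp at he; tauto) (by simp at he; tauto)]
  abel

lemma At.value {s t : E → V} {v u : V} {e : E} (h : At s t v e u) (m y : ℤ) :
    ∃ z : ℤ, (z = y ∨ z = m - y) ∧ ∀ w, m ∣ tm (s e) (t e) w z - tm u v w y := by
  rcases h with ⟨h1, h2⟩ | ⟨h1, h2⟩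
  · refine ⟨m - y, Or.inr rfl, fun w => ⟨tm v u w 1, ?_⟩⟩
    rw [h1, h2]; unfold tm; split_ifs <;> ring
  · exact ⟨y, Or.inl rfl, fun w => by simp [h1, h2]⟩

/-- number of edges that are not loops -/
def nl (s t : E → V) : ℕ := (univ.filter fun e => s e ≠ t e).card

lemma split_step {s t : E → V} {k A a : ℕ} (hk : Odd k)
    (H : ∀ X, Odd (cut s t X) → k ≤ cut s t X) (v : V) (hv : Even (cut s t {v}))
    (hv0 : cut s t {v} ≠ 0) : ∃ s' t' : E → V, nl s' t' < nl s t ∧
      (∀ X, Odd (cut s' t' X) → k ≤ cut s' t' X) ∧ (MFlow s' t' A a → MFlow s t A a) := by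
  classical
  obtain ⟨e1, e2, u1, u2, h12, hu1, hu2, h1, h2, hX⟩ := exists_split hk H v hv hv0
  let s' : E → V := fun e => if e = e1 then u1 else if e = e2 then v else s e
  let t' : E → V := fun e => if e = e1 then u2 else if e = e2 then v else t e
  have a1 : s' e1 = u1 := by simp [s']
  have a2 : t' e1 = u2 := by simp [t']
  have a3 : s' e2 = v := by simp [s', h12.symm]
  have a4 : t' e2 = v := by simp [t', h12.symm]
  have a5 : ∀ e, e ≠ e1 → e ≠ e2 → s' e = s e ∧ t' e = t e := fun e h h' => by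
    simp [s', t', h, h']
  have n1 : s e1 ≠ t e1 := by
    rcases h1 with ⟨h, h'⟩ | ⟨h, h'⟩ <;> rw [h, h']
    · exact hu1.symm
    · exact hu1
  have n2 : s e2 ≠ t e2 := by
    rcases h2 with ⟨h, h'⟩ | ⟨h, h'⟩ <;> rw [h, h']
    · exact hu2.symm
    · exact hu2
  refine ⟨s', t', ?_, ?_, ?_⟩
  · refine card_lt_card ⟨fun e he => ?_, fun h => ?_⟩
    · simp only [mem_filter, mem_univ, true_and] at he ⊢
      by_cases b1 : e = e1
      · rwa [b1]
      by_cases b2 : e = e2
      · rwa [b2]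
      rwa [(a5 e b1 b2).1, (a5 e b1 b2).2] at he
    · have := h (mem_filter.mpr ⟨mem_univ e2, n2⟩)
      simp [a3, a4] at this
  · have key : ∀ X, v ∉ X → Odd (cut s' t' X) → k ≤ cut s' t' X := by
      intro X hvX hodd
      have c0 := sum_two (f := fun e => chi X (s' e) (t' e)) (g := fun e => chi X (s e) (t e)) h12
        fun e h h' => by simp only [(a5 e h h').1, (a5 e h h').2]
      have c1 : chi X (s e1) (t e1) = if u1 ∈ X then 1 else 0 := by
        rcases h1 with ⟨h, h'⟩ | ⟨h, h'⟩ <;> by_cases hu : u1 ∈ X <;> simp [chi, h, h', hu, hvX]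
      have c2 : chi X (s e2) (t e2) = if u2 ∈ X then 1 else 0 := by
        rcases h2 with ⟨h, h'⟩ | ⟨h, h'⟩ <;> by_cases hu : u2 ∈ X <;> simp [chi, h, h', hu, hvX]
      simp only [a1, a2, a3, a4, c1, c2] at c0
      change cut s' t' X + _ = cut s t X + _ at c0
      have c3 := H X
      have c4 := hX X hvX
      rw [Nat.odd_iff] at hodd c3 hk
      by_cases b1 : u1 ∈ X <;> by_cases b2 : u2 ∈ X <;> simp [chi, b1, b2] at c0 c4 <;> omega
    intro X hodd
    by_cases hvX : v ∈ X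
    · rw [← cut_compl] at hodd ⊢
      exact key _ (by simpa using hvX) hodd
    · exact key X hvX hodd
  · rintro ⟨x, hx, hx'⟩
    set m : ℤ := ((2 * A + a : ℕ) : ℤ) with hm
    obtain ⟨z1, hz1, hz1'⟩ := h1.value m (x e1)
    obtain ⟨z2, hz2, hz2'⟩ := h2.value m (m - x e1)
    have hb := hx e1
    let x' : E → ℤ := fun e => if e = e1 then z1 else if e = e2 then z2 else x e
    refine ⟨x', fun e => ?_, fun w => ?_⟩
    · simp only [x']
      push_cast at hm
      split_ifs
      · rcases hz1 with h | h <;> omega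
      · rcases hz2 with h | h <;> omega
      · exact hx e
    · have c0 := sum_two (f := fun e => tm (s e) (t e) w (x' e))
        (g := fun e => tm (s' e) (t' e) w (x e)) h12
        fun e h h' => by simp only [(a5 e h h').1, (a5 e h h').2, x', if_neg h, if_neg h']
      have b1 : x' e1 = z1 := by simp [x']
      have b2 : x' e2 = z2 := by simp [x', h12.symm]
      simp only [a1, a2, a3, a4, b1, b2] at c0
      change bd s t x' w + _ = bd s' t' x w + _ at c0
      have c1 : tm u1 v w (x e1) + tm u2 v w (m - x e1) =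
          tm u1 u2 w (x e1) + tm v v w (x e2) + m * tm u2 v w 1 := by
        unfold tm; split_ifs <;> ring
      have c2 : bd s t x' w = bd s' t' x w + (tm (s e1) (t e1) w z1 - tm u1 v w (x e1)) +
          (tm (s e2) (t e2) w z2 - tm u2 v w (m - x e1)) + m * tm u2 v w 1 := by linarith
      rw [c2]
      exact dvd_add (dvd_add (dvd_add (hx' w) (hz1' w)) (hz2' w)) (dvd_mul_right _ _)

/-- From a flow modulo `m` to an integer flow. -/
lemma MFlow.int {s t : E → V} {A a : ℕ} (hm : 0 < 2 * A + a) (h : MFlow s t A a) :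
    ∃ f : E → ℤ, (∀ e, (A : ℤ) ≤ |f e| ∧ |f e| ≤ A + a) ∧
      ∀ v, ∑ e with s e = v, f e = ∑ e with t e = v, f e := by
  obtain ⟨x, hx, hx'⟩ := h
  set m : ℤ := ((2 * A + a : ℕ) : ℤ) with hm'
  have hm0 : 0 < m := by rw [hm']; exact_mod_cast hm
  have hm1 : (0 : ℝ) < m := by exact_mod_cast hm0
  have hm2 : m = 2 * A + a := by rw [hm']; push_cast; ring
  choose z hz using hx'
  have hsum : ∑ v, z v = 0 := by
    have h1 : ∑ v, bd s t x v = 0 := by
      simp only [bd]
      rw [sum_comm]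
      simp [tm, sum_sub_distrib]
    simp only [hz, ← mul_sum] at h1
    exact (mul_eq_zero.mp h1).resolve_left hm0.ne'
  obtain ⟨y, hy, hy'⟩ := round_off s t (fun _ => 1) (fun _ => by norm_num) z hsum
    (fun e => x e / m) le_rfl (by simp) (fun e => by
      have h1 : (0 : ℝ) ≤ x e := by exact_mod_cast (by have := hx e; omega : 0 ≤ x e)
      have h2 : (x e : ℝ) ≤ m := by exact_mod_cast (by have := hx e; omega : x e ≤ m)
      exact ⟨by simpa using div_nonneg h1 hm1.le, by simpa using (div_le_one hm1).mpr h2⟩)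
    (fun v => by
      have h1 : ((bd s t x v : ℤ) : ℝ) = m * z v := by exact_mod_cast hz v
      have h2 : ∑ e, (x e : ℝ) / m * inc s t e v = (bd s t x v : ℤ) / m := by
        simp only [bd, Int.cast_sum, sum_div]
        refine sum_congr rfl fun e _ => ?_
        simp only [inc, tm, Pi.sub_apply, Pi.single_apply, eq_comm (a := v)]
        split_ifs <;> simp [neg_div]
      rw [h2, h1]; field_simp)
  refine ⟨fun e => x e - m * y e, fun e => ?_, fun v => ?_⟩
  · have h1 := hx e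
    have h2 := hy e
    have h3 : y e = 0 ∨ y e = 1 := by omega
    rcases h3 with h | h <;> simp only [h]
    · rw [mul_zero, sub_zero, abs_of_nonneg (by omega)]; exact h1
    · rw [mul_one, abs_of_nonpos (by omega)]; omega
  · have h1 := hz v
    have h2 := hy' v
    rw [bd_eq] at h1
    simp only [sum_sub_distrib, ← mul_sum]
    linear_combination h1 - m * h2

end Pool.Agent.Lib.MP_c8786f_co.Elec
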